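import Pool.Agent.helper4.QX.SpecD
import Pool.Agent.helper62.QU.All

/-!
# qd:WBA (MP_07c750_an): bounds in flat bundles
-/

set_option autoImplicit false

open scoped MatrixGroups ContDiff Topology UpperHalfPlane
open UpperHalfPlane MeasureTheory ProbabilityTheory Filter Set Polynomial
open Pool.Agent.QU Pool.Agent.RP

namespace Pool.Agent.QX

/-! ### The norm over `F` -/

section L2

variable {V : Type} [NormedAddCommGroup V] {F : Set ℍ}

/-- the norm over `F` -/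
noncomputable def WBA_N (F : Set ℍ) (f : ℍ → V) : ℝ := Real.sqrt (∫ z in F, ‖f z‖ ^ 2)

theorem WBA_N_nonneg (f : ℍ → V) : 0 ≤ WBA_N F f := Real.sqrt_nonneg _

theorem WBA_N_sq (f : ℍ → V) : WBA_N F f ^ 2 = ∫ z in F, ‖f z‖ ^ 2 :=
  Real.sq_sqrt (integral_nonneg fun _ => sq_nonneg _)

theorem WBA_of_sq {f g : ℍ → V} {m : ℝ} (hm : 0 ≤ m)
    (h : ∫ z in F, ‖f z‖ ^ 2 ≤ m ^ 2 * ∫ z in F, ‖g z‖ ^ 2) : WBA_N F f ≤ m * WBA_N F g := by
  have h1 := Real.sqrt_le_sqrt h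
  rw [Real.sqrt_mul (sq_nonneg m), Real.sqrt_sq hm] at h1
  exact h1

theorem WBA_to_sq {f g : ℍ → V} {m w : ℝ} (hw : 0 ≤ w)
    (h : w * WBA_N F f ≤ m * WBA_N F g) :
    w ^ 2 * (∫ z in F, ‖f z‖ ^ 2) ≤ m ^ 2 * ∫ z in F, ‖g z‖ ^ 2 := by
  rw [← WBA_N_sq, ← WBA_N_sq, ← mul_pow, ← mul_pow]
  exact pow_le_pow_left₀ (mul_nonneg hw (WBA_N_nonneg f)) h 2

theorem WBA_N_smul [NormedSpace ℝ V] (c : ℝ) (f : ℍ → V) :
    WBA_N F (fun z => c • f z) = |c| * WBA_N F f := by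
  unfold WBA_N
  have h : ∀ z, ‖c • f z‖ ^ 2 = c ^ 2 * ‖f z‖ ^ 2 := by
    intro z
    rw [norm_smul, mul_pow, Real.norm_eq_abs, sq_abs]
  simp only [h]
  rw [integral_const_mul, Real.sqrt_mul (sq_nonneg c), Real.sqrt_sq_eq_abs]

theorem WBA_lin3 (hI : ∀ f : ℍ → ℝ, Continuous f → IntegrableOn f F volume) (u v w : ℍ → ℝ)
    (hu : Continuous u) (hv : Continuous v) (hw : Continuous w) (a b c : ℝ) :
    ∫ z in F, (a * u z + b * v z + c * w z) =
      a * (∫ z in F, u z) + b * (∫ z in F, v z) + c * ∫ z in F, w z := by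
  have h1 : IntegrableOn (fun z => a * u z) F volume := (hI u hu).const_mul a
  have h2 : IntegrableOn (fun z => b * v z) F volume := (hI v hv).const_mul b
  have h3 : IntegrableOn (fun z => c * w z) F volume := (hI w hw).const_mul c
  have h12 : IntegrableOn (fun z => a * u z + b * v z) F volume := h1.add h2
  calc ∫ z in F, (a * u z + b * v z + c * w z)
      = (∫ z in F, (a * u z + b * v z)) + ∫ z in F, c * w z := integral_add h12 h3
    _ = ((∫ z in F, a * u z) + ∫ z in F, b * v z) + ∫ z in F, c * w z := by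
        rw [integral_add h1 h2]
    _ = _ := by rw [integral_const_mul, integral_const_mul, integral_const_mul]

theorem WBA_N_add (hI : ∀ f : ℍ → ℝ, Continuous f → IntegrableOn f F volume) {f g : ℍ → V}
    (hf : Continuous f) (hg : Continuous g) :
    WBA_N F (fun z => f z + g z) ≤ WBA_N F f + WBA_N F g := by
  have hf2 : Continuous fun z => ‖f z‖ ^ 2 := hf.norm.pow 2
  have hg2 : Continuous fun z => ‖g z‖ ^ 2 := hg.norm.pow 2
  have hfg : Continuous fun z => ‖f z‖ * ‖g z‖ := hf.norm.mul hg.norm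
  have hs2 : Continuous fun z => ‖f z + g z‖ ^ 2 := (hf.add hg).norm.pow 2
  obtain ⟨A, hA⟩ : ∃ A, A = ∫ z in F, ‖f z‖ ^ 2 := ⟨_, rfl⟩
  obtain ⟨B, hB⟩ : ∃ B, B = ∫ z in F, ‖g z‖ ^ 2 := ⟨_, rfl⟩
  obtain ⟨I, hIe⟩ : ∃ I, I = ∫ z in F, ‖f z‖ * ‖g z‖ := ⟨_, rfl⟩
  have hA0 : 0 ≤ A := by rw [hA]; exact integral_nonneg fun _ => sq_nonneg _
  have hB0 : 0 ≤ B := by rw [hB]; exact integral_nonneg fun _ => sq_nonneg _
  have key : ∀ t : ℝ, 0 ≤ A * (t * t) + (-2 * I) * t + B := by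
    intro t
    have h1 : 0 ≤ ∫ z in F, (t * ‖f z‖ - ‖g z‖) ^ 2 := integral_nonneg fun _ => sq_nonneg _
    have h2 : (∫ z in F, (t * ‖f z‖ - ‖g z‖) ^ 2) =
        ∫ z in F, ((t * t) * ‖f z‖ ^ 2 + (-2 * t) * (‖f z‖ * ‖g z‖) + 1 * ‖g z‖ ^ 2) := by
      congr 1
      funext z
      ring
    rw [h2, WBA_lin3 hI _ _ _ hf2 hfg hg2, ← hA, ← hB, ← hIe] at h1
    linarith
  have hdis := discrim_le_zero key
  unfold discrim at hdis
  have hI2 : I ^ 2 ≤ A * B := by nlinarith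
  have hI3 : I ≤ Real.sqrt A * Real.sqrt B := by
    rw [← Real.sqrt_mul hA0]
    exact Real.le_sqrt_of_sq_le hI2
  have h3 : (∫ z in F, ‖f z + g z‖ ^ 2) ≤
      ∫ z in F, (1 * ‖f z‖ ^ 2 + 2 * (‖f z‖ * ‖g z‖) + 1 * ‖g z‖ ^ 2) := by
    apply integral_mono (hI _ hs2) (hI _ (((hf2.const_mul 1).add (hfg.const_mul 2)).add
      (hg2.const_mul 1)))
    intro z
    have h4 := norm_add_le (f z) (g z)
    have h5 := norm_nonneg (f z + g z)
    show ‖f z + g z‖ ^ 2 ≤ (1 * ‖f z‖ ^ 2 + 2 * (‖f z‖ * ‖g z‖)) + 1 * ‖g z‖ ^ 2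
    nlinarith
  rw [WBA_lin3 hI _ _ _ hf2 hfg hg2, ← hA, ← hB, ← hIe] at h3
  have h6 := Real.sq_sqrt hA0
  have h7 := Real.sq_sqrt hB0
  unfold WBA_N
  rw [← hA, ← hB]
  apply Real.sqrt_le_iff.2
  refine ⟨by positivity, h3.trans ?_⟩
  nlinarith

end L2

/-! ### Sections -/

theorem WBA_lap_smul {E : Type} [NormedAddCommGroup E] [NormedSpace ℝ E] (c : ℝ) (φ : ℍ → E)
    (z : ℍ) : lap (fun w => c • φ w) z = c • lap φ z := by
  have h1 : onC (fun w => c • φ w) = c • onC φ := rfl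
  have h2 : fderiv ℝ (c • onC φ) = c • fderiv ℝ (onC φ) := fderiv_const_smul_field c
  have h3 : fderiv ℝ (c • fderiv ℝ (onC φ)) (z : ℂ) = c • fderiv ℝ (fderiv ℝ (onC φ)) (z : ℂ) :=
    congrFun (fderiv_const_smul_field (𝕜 := ℝ) (f := fderiv ℝ (onC φ)) c) (z : ℂ)
  unfold lap
  rw [h1, h2, h3]
  simp only [smul_apply]
  rw [← smul_add, smul_comm]

section sec

variable {Γ : Subgroup SL(2, ℝ)} {V : Type} [NormedAddCommGroup V] [InnerProductSpace ℂ V]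
  {ρ : Γ →* (V ≃ₗᵢ[ℂ] V)}

theorem WBA_rsmul (γ : Γ) (t : ℝ) (v : V) : ρ γ (t • v) = t • ρ γ v := by
  rw [← Complex.coe_smul, ← Complex.coe_smul, map_smul]

theorem WBA_sec_add {f g : ℍ → V} (hf : SecC ρ f) (hg : SecC ρ g) (t : ℝ) :
    SecC ρ (fun z => f z + t • g z) := by
  refine ⟨hf.cont.add (hg.cont.const_smul t), ?_⟩
  intro γ z
  show f (γ • z) + t • g (γ • z) = ρ γ (f z + t • g z)
  rw [hf.eqv, hg.eqv, map_add, WBA_rsmul]

theorem WBA_sec_smul {g : ℍ → V} (hg : SecC ρ g) (t : ℝ) : SecC ρ (fun z => t • g z) := by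
  refine ⟨hg.cont.const_smul t, ?_⟩
  intro γ z
  show t • g (γ • z) = ρ γ (t • g z)
  rw [hg.eqv, WBA_rsmul]

theorem WBA_sec_sub {f g : ℍ → V} (hf : SecC ρ f) (hg : SecC ρ g) :
    SecC ρ (fun z => f z - g z) := by
  refine ⟨hf.cont.sub hg.cont, ?_⟩
  intro γ z
  show f (γ • z) - g (γ • z) = ρ γ (f z - g z)
  rw [hf.eqv, hg.eqv, map_sub]

theorem WBA_secB (hΓ : SurfaceGroup Γ) {F : Set ℍ} (hF : NiceDom Γ F) {f : ℍ → V}
    (hf : SecC ρ f) : SecB ρ f := by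
  refine ⟨hf.cont.stronglyMeasurable, ?_, hf.eqv⟩
  obtain ⟨⟨m, hm⟩, -⟩ := A_BDD Γ F (fun z => ‖f z‖) hΓ hF ⟨hf.cont.norm, fun γ z => by
    show ‖f (γ • z)‖ = ‖f z‖
    rw [hf.eqv, LinearIsometryEquiv.norm_map]⟩
  exact ⟨m, fun z => (le_abs_self _).trans (hm z)⟩

/-- Young's inequality for the norms -/
theorem WBA_conv (hYNM : YNM_stmt) [CompleteSpace V] (hΓ : SurfaceGroup Γ) {F : Set ℍ}
    (hF : NiceDom Γ F) {κ : ℝ → ℝ} (hκ : RK κ) {m : ℝ} (hm : 0 ≤ m)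
    (hmass : ∀ z : ℍ, ∫ w : ℍ, |κ (tt z w)| ≤ m) {f : ℍ → V} (hf : SecC ρ f) :
    SecC ρ (conv κ f) ∧ WBA_N F (conv κ f) ≤ m * WBA_N F f := by
  have h := hYNM Γ F V ρ κ f m hΓ hF hκ (WBA_secB hΓ hF hf) hmass
  exact ⟨h.1, WBA_of_sq hm h.2⟩

end sec

/-- the estimates for fixed parameters -/
theorem WBA_main (hYNM : YNM_stmt) (hPAN : PAN_stmt) {Γ : Subgroup SL(2, ℝ)} {F : Set ℍ} {V : Type}
    [NormedAddCommGroup V] [InnerProductSpace ℂ V] [CompleteSpace V] (ρ : Γ →* (V ≃ₗᵢ[ℂ] V))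
    (hΓ : SurfaceGroup Γ) (hF : NiceDom Γ F) {κ₁ : ℝ → ℝ} {C₁ : ℝ} (hB : BF κ₁ C₁)
    {η τ : ℝ} (hη : 0 < η) (hη1 : η ≤ 1) (hτ : 0 < τ) (p q : ℝ[X])
    (x₀ ct μ₀ CP M2 Mq : ℝ) (hp : p = 1 + (X - Polynomial.C x₀) * q) (hx : 1 - x₀ = ct * μ₀)
    (hct : 0 ≤ ct) (hCP : 0 ≤ CP) (hM2 : 0 ≤ M2) (hMq : 0 ≤ Mq)
    (hbd : ∀ t : ℝ, |t| ≤ 1 → |p.eval t| ≤ CP ∧ |q.eval t| ≤ Mq ∧
      |(t - x₀) * p.eval t| ≤ M2)
    (hSEC : ∀ φ : ℍ → V, SecC ρ φ → CD 2 φ → CD 2 (lap φ) →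
      ∫ z in F, ‖φ z - conv (fm κ₁ τ) φ z - ct • lap φ z‖ ^ 2 ≤
        (τ ^ 2 / 4) ^ 2 * ∫ z in F, ‖lap (lap φ) z‖ ^ 2) :
    (∀ χ : ℍ → V, SecC ρ χ →
      WBA_N F (pA (fm κ₁ τ) p (conv (fm κ₁ η) χ)) ≤ CP * WBA_N F χ ∧
      ct * WBA_N F (fun z => lap (pA (fm κ₁ τ) p (conv (fm κ₁ η) χ)) z -
        μ₀ • pA (fm κ₁ τ) p (conv (fm κ₁ η) χ) z) ≤
          (CP * (τ ^ 2 / 4 * (C₁ / η ^ 2)) + M2) * WBA_N F χ) ∧
    ∀ (φ : ℍ → V) (μ : ℝ), IsEigensection ρ μ φ → 0 ≤ μ →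
      WBA_N F (fun z => pA (fm κ₁ τ) p (conv (fm κ₁ η) (conv (fm κ₁ η) φ)) z - φ z) ≤
        (CP * (η * μ) + Mq * (τ ^ 2 / 4 * μ ^ 2 + ct * |μ - μ₀|)) * WBA_N F φ ∧
      WBA_N F (fun z => lap (pA (fm κ₁ τ) p (conv (fm κ₁ η) (conv (fm κ₁ η) φ))) z -
        μ₀ • pA (fm κ₁ τ) p (conv (fm κ₁ η) (conv (fm κ₁ η) φ)) z) ≤
          |μ - μ₀| * CP * WBA_N F φ := by
  -- integrability
  obtain ⟨K, hK, hFK⟩ := hF.rel
  obtain ⟨-, -, -, hfin, -, -⟩ := A_DOB Γ F hΓ hF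
  have hI : ∀ f : ℍ → ℝ, Continuous f → IntegrableOn f F volume :=
    fun f hf => EIG_int hK hFK hF.meas hfin f hf
  have hadd : ∀ f g : ℍ → V, SecC ρ f → SecC ρ g →
      WBA_N F (fun z => f z + g z) ≤ WBA_N F f + WBA_N F g :=
    fun f g hf hg => WBA_N_add hI hf.cont hg.cont
  -- the kernels
  obtain ⟨κe, hκe⟩ : ∃ κ, κ = fm κ₁ η := ⟨_, rfl⟩
  obtain ⟨κa, hκa⟩ : ∃ κ, κ = fm κ₁ τ := ⟨_, rfl⟩
  have hRe : RK κe := by rw [hκe]; exact hB.fam.rk η hη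
  have hRa : RK κa := by rw [hκa]; exact hB.fam.rk τ hτ
  have hRL : RK (LL κe) := A_LAK.2.2.2.1 κe hRe
  have hRLL : RK (LL (LL κe)) := A_LAK.2.2.2.1 _ hRL
  have hC1 : 0 ≤ C₁ := zero_le_one.trans hB.one
  have hme : ∀ z : ℍ, ∫ w : ℍ, |κe (tt z w)| ≤ 1 := by
    intro z
    have e : (fun w : ℍ => |κe (tt z w)|) = fun w : ℍ => κe (tt z w) := by
      funext w
      rw [hκe]
      exact abs_of_nonneg (hB.fam.nonneg η hη _)
    rw [e, hκe]
    exact (hB.fam.mass η hη z).le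
  have hma : ∀ z : ℍ, ∫ w : ℍ, |κa (tt z w)| ≤ 1 := by
    intro z
    have e : (fun w : ℍ => |κa (tt z w)|) = fun w : ℍ => κa (tt z w) := by
      funext w
      rw [hκa]
      exact abs_of_nonneg (hB.fam.nonneg τ hτ _)
    rw [e, hκa]
    exact (hB.fam.mass τ hτ z).le
  have hma' : ∀ z : ℍ, ∫ w : ℍ, κa (tt z w) ≤ 1 := by
    intro z
    rw [hκa]
    exact (hB.fam.mass τ hτ z).le
  have hnn : ∀ t, 0 ≤ t → 0 ≤ κa t := by
    intro t _
    rw [hκa]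
    exact hB.fam.nonneg τ hτ t
  have hmL : ∀ z : ℍ, ∫ w : ℍ, |LL κe (tt z w)| ≤ C₁ / η := by
    rw [hκe]; exact hB.lap1 η hη hη1
  have hmLL : ∀ z : ℍ, ∫ w : ℍ, |LL (LL κe) (tt z w)| ≤ C₁ / η ^ 2 := by
    rw [hκe]; exact hB.lap2 η hη hη1
  have hQ : ∀ f : ℍ → V, SecC ρ f → SecC ρ (conv κe f) ∧
      WBA_N F (conv κe f) ≤ WBA_N F f := by
    intro f hf
    have h := WBA_conv hYNM hΓ hF hRe zero_le_one hme hf
    rw [one_mul] at h
    exact h
  have hA : ∀ f : ℍ → V, SecC ρ f → SecC ρ (conv κa f) := fun f hf =>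
    (WBA_conv hYNM hΓ hF hRa zero_le_one hma hf).1
  have hCVS := fun (κ : ℝ → ℝ) (f : ℍ → V) => A_CVS V κ f
  -- polynomials of `A`
  obtain ⟨P1, P2, P3, -, P5, -, P7⟩ := hPAN Γ F V ρ κa p hΓ hF hRa hnn hma'
  have P2' : ∀ f : ℍ → V, SecC ρ f → WBA_N F (pA κa p f) ≤ CP * WBA_N F f :=
    fun f hf => WBA_of_sq hCP (P2 f CP hf hCP fun t ht => (hbd t ht).1)
  have PX : ∀ f : ℍ → V, SecC ρ f →
      WBA_N F (pA κa p (fun w => conv κa f w - x₀ • f w)) ≤ M2 * WBA_N F f := by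
    intro f hf
    obtain ⟨-, R2, -, -, -, -, -⟩ :=
      hPAN Γ F V ρ κa ((X - Polynomial.C x₀) * p) hΓ hF hRa hnn hma'
    have e : pA κa p (fun w => conv κa f w - x₀ • f w) =
        pA κa ((X - Polynomial.C x₀) * p) f := by
      funext z
      exact (P3 _ x₀ f hf rfl z).symm
    rw [e]
    refine WBA_of_sq hM2 (R2 f M2 hf hM2 fun t ht => ?_)
    have h := (hbd t ht).2.2
    rw [Polynomial.eval_mul, Polynomial.eval_sub, Polynomial.eval_X, Polynomial.eval_C]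
    exact h
  have PW : ∀ f : ℍ → V, SecC ρ f →
      WBA_N F (fun z => pA κa p f z - f z) ≤ Mq * WBA_N F (fun w => conv κa f w - x₀ • f w) := by
    intro f hf
    obtain ⟨-, -, -, R4, -, -, -⟩ :=
      hPAN Γ F V ρ κa ((X - Polynomial.C x₀) * q) hΓ hF hRa hnn hma'
    obtain ⟨-, S2, S3, -, -, -, -⟩ := hPAN Γ F V ρ κa q hΓ hF hRa hnn hma'
    have hs : SecC ρ (fun w => conv κa f w - x₀ • f w) :=
      WBA_sec_sub (hA f hf) (WBA_sec_smul hf x₀)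
    have e : (fun z => pA κa p f z - f z) = pA κa q (fun w => conv κa f w - x₀ • f w) := by
      funext z
      rw [R4 p f hf hp z, S3 _ x₀ f hf rfl z, add_sub_cancel_left]
    rw [e]
    exact WBA_of_sq hMq (S2 _ Mq hs hMq fun t ht => (hbd t ht).2.1)
  rw [← hκe, ← hκa]
  rw [← hκa] at hSEC
  constructor
  · intro χ hχ
    obtain ⟨hXs, hXn⟩ := hQ χ hχ
    obtain ⟨Xf, hXf⟩ : ∃ Xf, Xf = conv κe χ := ⟨_, rfl⟩
    obtain ⟨v1, -, -, v4⟩ := hCVS κe χ hRe hχ.cont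
    obtain ⟨w1, -, -, w4⟩ := hCVS (LL κe) χ hRL hχ.cont
    have hlX : lap Xf = conv (LL κe) χ := by rw [hXf]; exact funext v4
    have hllX : lap (lap Xf) = conv (LL (LL κe)) χ := by rw [hlX]; exact funext w4
    rw [← hXf] at hXs hXn v1 ⊢
    have hLs : SecC ρ (lap Xf) := by
      rw [hlX]
      exact (WBA_conv hYNM hΓ hF hRL (by positivity) hmL hχ).1
    have hLLn : WBA_N F (lap (lap Xf)) ≤ C₁ / η ^ 2 * WBA_N F χ := by
      rw [hllX]
      exact (WBA_conv hYNM hΓ hF hRLL (by positivity) hmLL hχ).2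
    have hχ0 : 0 ≤ WBA_N F χ := WBA_N_nonneg χ
    refine ⟨(P2' Xf hXs).trans (mul_le_mul_of_nonneg_left hXn hCP), ?_⟩
    have hsec := WBA_of_sq (by positivity) (hSEC Xf hXs v1 (by rw [hlX]; exact w1))
    have hAs := hA Xf hXs
    have hR1 : SecC ρ (fun w => Xf w + (-1 : ℝ) • conv κa Xf w) := WBA_sec_add hXs hAs (-1)
    have hR2 : SecC ρ (fun w => (Xf w + (-1 : ℝ) • conv κa Xf w) + (-ct) • lap Xf w) :=
      WBA_sec_add hR1 hLs (-ct)
    have eR : (fun w => Xf w - conv κa Xf w - ct • lap Xf w) =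
        fun w => (Xf w + (-1 : ℝ) • conv κa Xf w) + (-ct) • lap Xf w := by
      funext w
      module
    rw [eR] at hsec
    have hWR := P2' _ hR2
    have hWX := PX Xf hXs
    have eX : (fun w => conv κa Xf w - x₀ • Xf w) = fun w => conv κa Xf w + (-x₀) • Xf w := by
      funext w
      module
    rw [eX] at hWX
    -- the identity
    have eY : (fun z => ct • (lap (pA κa p Xf) z - μ₀ • pA κa p Xf z)) =
        fun z => (-1 : ℝ) • pA κa p (fun w => (Xf w + (-1 : ℝ) • conv κa Xf w) +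
          (-ct) • lap Xf w) z + (-1 : ℝ) • pA κa p (fun w => conv κa Xf w + (-x₀) • Xf w) z := by
      funext z
      rw [P7 Xf hXs v1 z, P5 _ _ _ hR1 hLs z, P5 _ _ _ hXs hAs z, P5 _ _ _ hAs hXs z,
        smul_sub, smul_smul, ← hx]
      module
    have h1 : ct * WBA_N F (fun z => lap (pA κa p Xf) z - μ₀ • pA κa p Xf z) ≤
        WBA_N F (pA κa p (fun w => (Xf w + (-1 : ℝ) • conv κa Xf w) + (-ct) • lap Xf w)) +
        WBA_N F (pA κa p (fun w => conv κa Xf w + (-x₀) • Xf w)) := by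
      have h2 := WBA_N_smul (F := F) ct (fun z => lap (pA κa p Xf) z - μ₀ • pA κa p Xf z)
      rw [abs_of_nonneg hct] at h2
      rw [← h2, eY]
      have s1 : SecC ρ (fun z => (-1 : ℝ) • pA κa p (fun w => (Xf w + (-1 : ℝ) • conv κa Xf w) +
          (-ct) • lap Xf w) z) := WBA_sec_smul (P1 _ hR2) (-1)
      have s2 : SecC ρ (fun z => (-1 : ℝ) • pA κa p (fun w => conv κa Xf w + (-x₀) • Xf w) z) :=
        WBA_sec_smul (P1 _ (WBA_sec_add hAs hXs (-x₀))) (-1)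
      refine (hadd _ _ s1 s2).trans ?_
      rw [WBA_N_smul, WBA_N_smul]
      norm_num
    calc ct * WBA_N F (fun z => lap (pA κa p Xf) z - μ₀ • pA κa p Xf z)
        ≤ CP * (τ ^ 2 / 4 * (C₁ / η ^ 2 * WBA_N F χ)) + M2 * WBA_N F χ := by
          refine h1.trans (add_le_add ?_ ?_)
          · exact hWR.trans (mul_le_mul_of_nonneg_left
              (hsec.trans (mul_le_mul_of_nonneg_left hLLn (by positivity))) hCP)
          · exact hWX.trans (mul_le_mul_of_nonneg_left hXn hM2)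
      _ = (CP * (τ ^ 2 / 4 * (C₁ / η ^ 2)) + M2) * WBA_N F χ := by ring
  · intro φ μ hφ hμ
    obtain ⟨hφc, hφe, hφl⟩ := hφ
    have hφ2 : CD 2 φ := (A_CA1 V).2.1 φ 2 ∞ (WithTop.coe_le_coe.2 (le_top : (2 : ℕ∞) ≤ ⊤)) hφc
    have hφs : SecC ρ φ := ⟨((A_CA1 V).1 φ).1 ((A_CA1 V).2.1 φ 0 2 zero_le hφ2), hφe⟩
    have hlφ : lap φ = fun z => μ • φ z := funext hφl
    have hφ0 : 0 ≤ WBA_N F φ := WBA_N_nonneg φ
    obtain ⟨hQs, hQn⟩ := hQ φ hφs
    obtain ⟨hQQs, hQQn⟩ := hQ _ hQs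
    -- the first smoothing
    have e1 : WBA_N F (fun z => conv κe φ z - φ z) ≤ μ * η / 2 * WBA_N F φ := by
      apply WBA_of_sq (by positivity)
      rw [hκe]
      exact A_EIG Γ F (fm κ₁) V ρ φ μ η hΓ hF hB.fam hη hφ2 hφe hφl
    have hds : SecC ρ (fun z => conv κe φ z - φ z) := WBA_sec_sub hQs hφs
    obtain ⟨hQds, hQdn⟩ := hQ _ hds
    have e2 : ∀ z, conv κe (fun z => conv κe φ z - φ z) z =
        conv κe (conv κe φ) z - conv κe φ z := by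
      intro z
      have h := (A_CVB V).2.1 κe (conv κe φ) φ 1 (-1) z hRe hQs.cont hφs.cont
      have e : (fun w => (1 : ℝ) • conv κe φ w + (-1 : ℝ) • φ w) =
          fun w => conv κe φ w - φ w := by
        funext w
        module
      rw [e] at h
      rw [h]
      module
    have e3 : WBA_N F (fun z => conv κe (conv κe φ) z - φ z) ≤ η * μ * WBA_N F φ := by
      have e : (fun z => conv κe (conv κe φ) z - φ z) =
          fun z => conv κe (fun z => conv κe φ z - φ z) z + (conv κe φ z - φ z) := by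
        funext z
        rw [e2]
        abel
      rw [e]
      refine (hadd _ _ hQds hds).trans ?_
      calc WBA_N F (conv κe fun z => conv κe φ z - φ z) + WBA_N F (fun z => conv κe φ z - φ z)
          ≤ μ * η / 2 * WBA_N F φ + μ * η / 2 * WBA_N F φ := add_le_add (hQdn.trans e1) e1
        _ = η * μ * WBA_N F φ := by ring
    have hdds : SecC ρ (fun z => conv κe (conv κe φ) z - φ z) := WBA_sec_sub hQQs hφs
    -- eigensections
    have hEA : WBA_N F (fun w => conv κa φ w - x₀ • φ w) ≤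
        (τ ^ 2 / 4 * μ ^ 2 + ct * |μ - μ₀|) * WBA_N F φ := by
      have hl2 : CD 2 (lap φ) := by
        rw [hlφ]
        exact (A_CA1 V).2.2.2.1 (fun _ => μ) φ 2 ((A_CA1 ℝ).2.2.2.2.2.2.2.2.1 μ 2) hφ2
      have hs := WBA_of_sq (by positivity) (hSEC φ hφs hφ2 hl2)
      have hll : WBA_N F (lap (lap φ)) = μ ^ 2 * WBA_N F φ := by
        have e : lap (lap φ) = fun z => (μ ^ 2) • φ z := by
          funext z
          rw [hlφ, WBA_lap_smul, hφl, smul_smul, sq]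
        rw [e, WBA_N_smul, abs_of_nonneg (sq_nonneg μ)]
      rw [hll] at hs
      have hls : SecC ρ (lap φ) := by rw [hlφ]; exact WBA_sec_smul hφs μ
      have e : (fun w => conv κa φ w - x₀ • φ w) =
          fun w => (-1 : ℝ) • (φ w - conv κa φ w - ct • lap φ w) + (ct * (μ₀ - μ)) • φ w := by
        funext w
        rw [hφl w]
        have e' : x₀ = 1 - ct * μ₀ := by linarith
        rw [e']
        module
      have hss : SecC ρ (fun w => φ w - conv κa φ w - ct • lap φ w) :=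
        WBA_sec_sub (WBA_sec_sub hφs (hA φ hφs)) (WBA_sec_smul hls ct)
      rw [e]
      refine (hadd _ _ (WBA_sec_smul hss (-1)) (WBA_sec_smul hφs _)).trans ?_
      rw [WBA_N_smul, WBA_N_smul, abs_mul, abs_of_nonneg hct, abs_sub_comm μ₀ μ]
      have h1 : |(-1 : ℝ)| = 1 := by norm_num
      rw [h1, one_mul]
      nlinarith [hs]
    -- the eigenvalue of the smoothed sections
    have hlam : ∀ ψ : ℍ → V, SecC ρ ψ → CD 2 ψ → (∀ z, lap ψ z = μ • ψ z) →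
        CD 2 (conv κe ψ) ∧ ∀ z, lap (conv κe ψ) z = μ • conv κe ψ z := by
      intro ψ hψs hψ2 hψl
      obtain ⟨v1, -, -, v4⟩ := hCVS κe ψ hRe hψs.cont
      refine ⟨v1, fun z => ?_⟩
      rw [v4 z, ← A_COM V κe ψ hRe hψ2 z]
      have h := (A_CVB V).2.1 κe ψ ψ μ 0 z hRe hψs.cont hψs.cont
      have e : (fun w => μ • ψ w + (0 : ℝ) • ψ w) = lap ψ := by
        funext w
        rw [zero_smul, add_zero, hψl]
      rw [e, zero_smul, add_zero] at h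
      exact h
    obtain ⟨q1, q2⟩ := hlam φ hφs hφ2 hφl
    obtain ⟨q3, q4⟩ := hlam _ hQs q1 q2
    obtain ⟨G, hG⟩ : ∃ G, G = conv κe (conv κe φ) := ⟨_, rfl⟩
    rw [← hG] at hQQs hQQn e3 hdds q3 q4 ⊢
    have hGn : WBA_N F G ≤ WBA_N F φ := hQQn.trans hQn
    constructor
    · have e : (fun z => pA κa p G z - φ z) =
          fun z => pA κa p (fun z => G z - φ z) z + (pA κa p φ z - φ z) := by
        funext z
        have h := P5 G φ (-1) hQQs hφs z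
        have e' : (fun w => G w + (-1 : ℝ) • φ w) = fun w => G w - φ w := by
          funext w
          module
        rw [e'] at h
        rw [h]
        module
      rw [e]
      refine (hadd _ _ (P1 _ hdds) (WBA_sec_sub (P1 _ hφs) hφs)).trans ?_
      have h1 := (P2' _ hdds).trans (mul_le_mul_of_nonneg_left e3 hCP)
      have h2 := (PW φ hφs).trans (mul_le_mul_of_nonneg_left hEA hMq)
      linarith
    · have e : (fun z => lap (pA κa p G) z - μ₀ • pA κa p G z) =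
          fun z => (μ - μ₀) • pA κa p G z := by
        funext z
        have h := P5 G G (μ - 1) hQQs hQQs z
        have e' : (fun w => G w + (μ - 1) • G w) = lap G := by
          funext w
          rw [q4 w]
          module
        rw [e'] at h
        rw [P7 G hQQs q3 z, h]
        module
      rw [e, WBA_N_smul, mul_assoc]
      exact mul_le_mul_of_nonneg_left ((P2' _ hQQs).trans
        (mul_le_mul_of_nonneg_left hGn hCP)) (abs_nonneg _)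

/-- the weight -/
theorem WBA_wt (μ b : ℝ) (hμ : 0 ≤ μ) (hμb : μ ≤ b) : ∃ w : ℝ, 0 ≤ w ∧ wt μ = w ^ 2 ∧
    w ≤ Real.log (2 + b) ∧ w * Real.sqrt μ ≤ Real.log (2 + b) := by
  have h1 : 0 < 1 + μ := by linarith
  have hl0 : 0 ≤ Real.log (2 + μ) := Real.log_nonneg (by linarith)
  have hl : Real.log (2 + μ) ≤ Real.log (2 + b) := Real.log_le_log (by linarith) (by linarith)
  have hs : 0 < Real.sqrt (1 + μ) := Real.sqrt_pos.2 h1
  refine ⟨Real.log (2 + μ) / Real.sqrt (1 + μ), by positivity, ?_, ?_, ?_⟩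
  · rw [div_pow, Real.sq_sqrt h1.le, wt]
  · rw [div_le_iff₀ hs]
    have h2 : 1 ≤ Real.sqrt (1 + μ) := Real.one_le_sqrt.2 (by linarith)
    nlinarith
  · rw [div_mul_eq_mul_div, div_le_iff₀ hs]
    have h2 : Real.sqrt μ ≤ Real.sqrt (1 + μ) := Real.sqrt_le_sqrt (by linarith)
    have h3 : 0 ≤ Real.sqrt μ := Real.sqrt_nonneg _
    exact mul_le_mul hl h2 h3 (hl0.trans hl)

theorem WBA (_h1 : BMP_stmt) (hYNM : YNM_stmt) (_h2 : GKL_stmt) (hSEC : SEC_stmt)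
    (hPAN : PAN_stmt) (hPLY : PLY_stmt) : WBA_stmt := by
  intro κ₁ C₁ hB
  obtain ⟨a, ct, ha, hct⟩ := hSEC κ₁ C₁ hB
  obtain ⟨CP, hCP1, hP⟩ := hPLY
  have hC1 : 1 ≤ C₁ := hB.one
  have hCP0 : 0 ≤ CP := zero_le_one.trans hCP1
  obtain ⟨CB, hCB⟩ : ∃ CB, CB = CP / a * (C₁ / 4 + 4) := ⟨_, rfl⟩
  have hCB0 : 0 ≤ CB := by rw [hCB]; positivity
  obtain ⟨C, hC⟩ : ∃ C, C = 2 + 5 * CP + CB := ⟨_, rfl⟩
  refine ⟨C, by rw [hC]; linarith, ?_⟩
  intro b δ hb hδ hδ1 μ₀ hμ0 hμb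
  have hs2 : 2 ≤ 2 + b := by linarith
  obtain ⟨s, hs⟩ : ∃ s, s = 2 + b := ⟨_, rfl⟩
  rw [← hs] at hs2
  have hs0 : 0 < s := by linarith
  have hs4 : 4 ≤ s ^ 2 := by
    calc (4 : ℝ) = 2 ^ 2 := by norm_num
      _ ≤ s ^ 2 := pow_le_pow_left₀ (by norm_num) hs2 2
  have hss : s ≤ s ^ 2 := by
    rw [sq]
    exact le_mul_of_one_le_left hs0.le (by linarith)
  obtain ⟨T, hT⟩ : ∃ T, T = Real.log (2 + b) := ⟨_, rfl⟩
  have hT2 : 1 / 2 ≤ T := by
    have h1 := Real.log_two_gt_d9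
    have h2 : Real.log 2 ≤ Real.log (2 + b) := Real.log_le_log (by norm_num) (by linarith)
    rw [hT]
    linarith
  have hT0 : 0 < T := by linarith
  have hTs : T ≤ s := by
    rw [hT, hs]
    have := Real.log_le_sub_one_of_pos (show 0 < 2 + b by linarith)
    linarith
  obtain ⟨η, hη⟩ : ∃ η, η = δ / (2 + b) ^ 2 := ⟨_, rfl⟩
  have hη0 : 0 < η := by rw [hη, ← hs]; positivity
  have hηs : η * s ^ 2 = δ := by
    rw [hη, ← hs]
    field_simp
  have hη4 : η ≤ 1 / 4 := by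
    have h1 : η * 4 ≤ η * s ^ 2 := mul_le_mul_of_nonneg_left hs4 hη0.le
    linarith
  have hη1 : η ≤ 1 := by linarith
  have hηs1 : η * s ≤ δ := by
    have h1 : η * s ≤ η * s ^ 2 := mul_le_mul_of_nonneg_left hss hη0.le
    linarith
  obtain ⟨τ, hτ⟩ : ∃ τ, τ = η ^ 3 := ⟨_, rfl⟩
  have hτ0 : 0 < τ := by rw [hτ]; positivity
  have hτ4 : τ ≤ 1 / 4 := by
    rw [hτ]
    have h1 : η ^ 3 ≤ η := by
      calc η ^ 3 ≤ η ^ 1 := pow_le_pow_of_le_one hη0.le hη1 (by norm_num)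
        _ = η := pow_one η
    linarith
  have hτ1 : τ ≤ 1 := by linarith
  obtain ⟨r, hr⟩ : ∃ r, r = Real.sqrt τ := ⟨_, rfl⟩
  have hr0 : 0 < r := by rw [hr]; exact Real.sqrt_pos.2 hτ0
  have hr2 : r ^ 2 = τ := by rw [hr]; exact Real.sq_sqrt hτ0.le
  have hr1 : r ≤ 1 / 2 := by
    rw [hr]
    apply Real.sqrt_le_iff.2
    exact ⟨by norm_num, by norm_num; linarith⟩
  obtain ⟨m, hm⟩ : ∃ m : ℕ, m = ⌈T / r⌉₊ := ⟨_, rfl⟩
  have hTr1 : 1 ≤ T / r := by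
    rw [le_div_iff₀ hr0]
    linarith
  have hTr0 : 0 ≤ T / r := by linarith
  obtain ⟨M, hM⟩ : ∃ M : ℝ, M = (m : ℝ) := ⟨_, rfl⟩
  have hM1 : T / r ≤ M := by rw [hM, hm]; exact Nat.le_ceil _
  have hM2 : M ≤ 2 * (T / r) := by
    have := Nat.ceil_lt_add_one hTr0
    rw [← hm, ← hM] at this
    linarith
  have hM0 : 0 < M := by linarith
  have hm1 : 1 ≤ m := by
    have h1 : (0 : ℝ) < (m : ℝ) := by rw [← hM]; exact hM0
    exact Nat.one_le_iff_ne_zero.2 (Nat.pos_iff_ne_zero.1 (by exact_mod_cast h1))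
  have hTMr : T ≤ M * r := (div_le_iff₀ hr0).1 hM1
  have hMrT : M * r ≤ 2 * T := by
    have h1 : M * r ≤ 2 * (T / r) * r := mul_le_mul_of_nonneg_right hM2 hr0.le
    have h2 : 2 * (T / r) * r = 2 * T := by field_simp
    linarith
  have hMτ1 : T ^ 2 ≤ M ^ 2 * τ := by
    rw [← hr2, ← mul_pow]
    exact pow_le_pow_left₀ hT0.le hTMr 2
  have hMτ2 : M ^ 2 * τ ≤ 4 * T ^ 2 := by
    rw [← hr2, ← mul_pow]
    calc (M * r) ^ 2 ≤ (2 * T) ^ 2 := pow_le_pow_left₀ (by positivity) hMrT 2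
      _ = 4 * T ^ 2 := by ring
  obtain ⟨hc1, hc2, hc3⟩ := hct τ hτ0 hτ1
  obtain ⟨g, hg⟩ : ∃ g, g = ct τ := ⟨_, rfl⟩
  rw [← hg] at hc1 hc2 hc3
  have hg0 : 0 < g := lt_of_lt_of_le (by positivity) hc1
  -- the angle
  have hgμ : g * μ₀ ≤ 1 := by
    have h1 : g * μ₀ ≤ τ / 2 * s := mul_le_mul hc2 (by linarith) hμ0 (by positivity)
    have h2 : τ * s ≤ 1 := by
      have h3 : τ * s = η ^ 2 * (η * s) := by rw [hτ]; ring
      rw [h3]
      have h4 : η ^ 2 ≤ 1 := pow_le_one₀ hη0.le hη1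
      have h5 : 0 ≤ η * s := by positivity
      exact mul_le_one₀ h4 h5 (hηs1.trans hδ1)
    linarith
  obtain ⟨x₀, hx₀⟩ : ∃ x₀, x₀ = 1 - g * μ₀ := ⟨_, rfl⟩
  have hx0 : 0 ≤ x₀ := by rw [hx₀]; linarith
  have hgμ0 : 0 ≤ g * μ₀ := by positivity
  have hx1 : x₀ ≤ 1 := by rw [hx₀]; linarith
  obtain ⟨θ, hθ⟩ : ∃ θ, θ = Real.arccos x₀ := ⟨_, rfl⟩
  have hθ0 : 0 ≤ θ := by rw [hθ]; exact Real.arccos_nonneg _
  have hθ1 : θ ≤ Real.pi / 2 := by rw [hθ]; exact Real.arccos_le_pi_div_two.2 hx0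
  have hcos : Real.cos θ = x₀ := by rw [hθ]; exact Real.cos_arccos (by linarith) hx1
  have hθ2 : θ ^ 2 ≤ 4 * τ * μ₀ := by
    have hpi := Real.pi_pos
    have h1 := Real.cos_le_one_sub_mul_cos_sq (x := θ) (by rw [abs_of_nonneg hθ0]; linarith)
    rw [hcos, hx₀] at h1
    have h2 : 2 / Real.pi ^ 2 * θ ^ 2 ≤ g * μ₀ := by linarith
    have h3 : g * μ₀ ≤ τ / 2 * μ₀ := mul_le_mul_of_nonneg_right hc2 hμ0
    have h4 : 2 / Real.pi ^ 2 * θ ^ 2 = 2 * θ ^ 2 / Real.pi ^ 2 := by ring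
    rw [h4] at h2
    have h5 : 2 * θ ^ 2 ≤ τ / 2 * μ₀ * Real.pi ^ 2 := by
      rw [← div_le_iff₀ (by positivity)]
      exact h2.trans h3
    have h6 : Real.pi ^ 2 ≤ 16 := by
      calc Real.pi ^ 2 ≤ 4 ^ 2 := pow_le_pow_left₀ hpi.le Real.pi_le_four 2
        _ = 16 := by norm_num
    have h7 : τ / 2 * μ₀ * Real.pi ^ 2 ≤ τ / 2 * μ₀ * 16 :=
      mul_le_mul_of_nonneg_left h6 (by positivity)
    linarith
  have hθ3 : θ ≤ 2 * r * Real.sqrt μ₀ := by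
    by_contra hcon
    push Not at hcon
    have h1 : (2 * r * Real.sqrt μ₀) ^ 2 < θ ^ 2 := pow_lt_pow_left₀ hcon (by positivity) (by norm_num)
    have h2 : (2 * r * Real.sqrt μ₀) ^ 2 = 4 * τ * μ₀ := by
      rw [mul_pow, mul_pow, hr2, Real.sq_sqrt hμ0]
      ring
    linarith
  obtain ⟨p, q, hdp, -, hpq, hpb⟩ := hP θ m hθ0 hθ1 hm1
  rw [hcos, ← hM] at hpb
  rw [hcos] at hpq
  obtain ⟨w, hw0, hwt, hwT, hwμ⟩ := WBA_wt μ₀ b hμ0 hμb
  rw [← hT] at hwT hwμ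
  have hCC : ∀ c : ℝ, c ≤ 2 + 5 * CP + CB → ∀ n : ℝ, 0 ≤ n → c * n ≤ C * n := by
    intro c hc n hn
    rw [hC]
    exact mul_le_mul_of_nonneg_right hc hn
  refine ⟨p, ?_⟩
  dsimp only
  rw [← hη, ← hτ, ← hT, ← hr]
  constructor
  · have h1 : (p.natDegree : ℝ) ≤ M := by rw [hM]; exact_mod_cast hdp
    calc (p.natDegree : ℝ) * r ≤ M * r := mul_le_mul_of_nonneg_right h1 hr0.le
      _ ≤ 2 * T := hMrT
      _ ≤ C * T := hCC 2 (by linarith) T hT0.le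
  intro Γ F V _ _ _ ρ hΓ hF
  obtain ⟨mA, mC⟩ := WBA_main hYNM hPAN ρ hΓ hF hB hη0 hη1 hτ0 p q x₀ g μ₀ CP
    (CP * (1 / M ^ 2 + θ / M)) (CP * M ^ 2) hpq (by rw [hx₀]; ring) hg0.le hCP0 (by positivity)
    (by positivity) hpb (fun φ k1 k2 k3 => hc3 Γ F V ρ φ hΓ hF k1 k2 k3)
  constructor
  · intro χ hχ
    obtain ⟨mA1, mA2⟩ := mA χ hχ
    have hn := WBA_N_nonneg (F := F) χ
    constructor
    · have h1 : 1 * WBA_N F (pA (fm κ₁ τ) p (conv (fm κ₁ η) χ)) ≤ C * WBA_N F χ := by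
        rw [one_mul]
        exact mA1.trans (hCC CP (by linarith) _ hn)
      have h2 := WBA_to_sq zero_le_one h1
      rwa [one_pow, one_mul] at h2
    · rw [hwt]
      apply WBA_to_sq hw0
      refine le_trans ?_ (hCC CB (by linarith) _ hn)
      obtain ⟨y, hy⟩ : ∃ y, y = WBA_N F (fun z => lap (pA (fm κ₁ τ) p (conv (fm κ₁ η) χ)) z -
        μ₀ • pA (fm κ₁ τ) p (conv (fm κ₁ η) χ) z) := ⟨_, rfl⟩
      have hy0 : 0 ≤ y := by rw [hy]; exact WBA_N_nonneg _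
      rw [← hy] at mA2 ⊢
      obtain ⟨n, hne⟩ : ∃ n, n = WBA_N F χ := ⟨_, rfl⟩
      rw [← hne] at mA2 hn ⊢
      have h1 : a * τ * y ≤ g * y := mul_le_mul_of_nonneg_right hc1 hy0
      -- three bounds
      have b1 : w * (τ ^ 2 / 4 * (C₁ / η ^ 2)) ≤ τ * (C₁ / 4) := by
        have e : w * (τ ^ 2 / 4 * (C₁ / η ^ 2)) = (w * η) * (τ * (C₁ / 4)) := by
          rw [hτ]
          field_simp
        rw [e]
        have h2 : w * η ≤ 1 := by
          calc w * η ≤ s * η := mul_le_mul_of_nonneg_right (hwT.trans hTs) hη0.le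
            _ = η * s := mul_comm _ _
            _ ≤ 1 := hηs1.trans hδ1
        exact mul_le_of_le_one_left (by positivity) h2
      have b2 : w * (1 / M ^ 2) ≤ 2 * τ := by
        rw [mul_one_div, div_le_iff₀ (by positivity)]
        have k1 : T * 1 ≤ T * (2 * T) := mul_le_mul_of_nonneg_left (by linarith) hT0.le
        calc w ≤ T * 1 := by rw [mul_one]; exact hwT
          _ ≤ T * (2 * T) := k1
          _ = 2 * T ^ 2 := by ring
          _ ≤ 2 * (M ^ 2 * τ) := by linarith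
          _ = 2 * τ * M ^ 2 := by ring
      have b3 : w * (θ / M) ≤ 2 * τ := by
        rw [← mul_div_assoc, div_le_iff₀ hM0]
        calc w * θ ≤ w * (2 * r * Real.sqrt μ₀) := mul_le_mul_of_nonneg_left hθ3 hw0
          _ = 2 * r * (w * Real.sqrt μ₀) := by ring
          _ ≤ 2 * r * (M * r) := mul_le_mul_of_nonneg_left (hwμ.trans hTMr) (by positivity)
          _ = 2 * τ * M := by rw [← hr2]; ring
      have b4 : w * (CP * (τ ^ 2 / 4 * (C₁ / η ^ 2)) + CP * (1 / M ^ 2 + θ / M)) ≤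
          a * τ * CB := by
        have e1 : a * τ * CB = CP * (τ * (C₁ / 4) + 2 * τ + 2 * τ) := by
          rw [hCB]
          field_simp
          ring
        have e2 : w * (CP * (τ ^ 2 / 4 * (C₁ / η ^ 2)) + CP * (1 / M ^ 2 + θ / M)) =
            CP * (w * (τ ^ 2 / 4 * (C₁ / η ^ 2)) + w * (1 / M ^ 2) + w * (θ / M)) := by ring
        rw [e1, e2]
        exact mul_le_mul_of_nonneg_left (by linarith) hCP0
      have haτ : 0 < a * τ := by positivity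
      apply le_of_mul_le_mul_left _ haτ
      calc a * τ * (w * y) = w * (a * τ * y) := by ring
        _ ≤ w * ((CP * (τ ^ 2 / 4 * (C₁ / η ^ 2)) + CP * (1 / M ^ 2 + θ / M)) * n) :=
            mul_le_mul_of_nonneg_left (h1.trans mA2) hw0
        _ = (w * (CP * (τ ^ 2 / 4 * (C₁ / η ^ 2)) + CP * (1 / M ^ 2 + θ / M))) * n := by ring
        _ ≤ (a * τ * CB) * n := mul_le_mul_of_nonneg_right b4 hn
        _ = a * τ * (CB * n) := by ring
  · intro φ μ hφ hμ hμb' hμd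
    obtain ⟨mC1, mC2⟩ := mC φ μ hφ hμ
    have hn := WBA_N_nonneg (F := F) φ
    have hμs : μ ≤ s := by linarith
    have hd0 : 0 ≤ |μ - μ₀| := abs_nonneg _
    constructor
    · have h1 : CP * (η * μ) + CP * M ^ 2 * (τ ^ 2 / 4 * μ ^ 2 + g * |μ - μ₀|) ≤ C * δ := by
        have c1 : η * μ ≤ δ :=
          (mul_le_mul_of_nonneg_left hμs hη0.le).trans hηs1
        have c2 : T ^ 2 * (τ * μ ^ 2) ≤ δ := by
          have k1 : T ^ 2 ≤ s ^ 2 := pow_le_pow_left₀ hT0.le hTs 2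
          have k2 : μ ^ 2 ≤ s ^ 2 := pow_le_pow_left₀ hμ hμs 2
          calc T ^ 2 * (τ * μ ^ 2) ≤ s ^ 2 * (τ * s ^ 2) :=
                mul_le_mul k1 (mul_le_mul_of_nonneg_left k2 hτ0.le) (by positivity) (by positivity)
            _ = η * (η * s ^ 2) ^ 2 := by rw [hτ]; ring
            _ = η * δ ^ 2 := by rw [hηs]
            _ ≤ 1 * (δ * 1) := by
                refine mul_le_mul hη1 ?_ (by positivity) zero_le_one
                rw [sq]
                exact mul_le_mul_of_nonneg_left hδ1 hδ.le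
            _ = δ := by ring
        have c3 : T ^ 2 * |μ - μ₀| ≤ δ := by
          have k := mul_le_mul_of_nonneg_left hμd (by positivity : 0 ≤ T ^ 2)
          have e : T ^ 2 * (δ / T ^ 2) = δ := by field_simp
          rwa [e] at k
        have c4 : M ^ 2 * (τ ^ 2 / 4 * μ ^ 2 + g * |μ - μ₀|) ≤ 3 * δ := by
          have k1 : g * |μ - μ₀| ≤ τ / 2 * |μ - μ₀| := mul_le_mul_of_nonneg_right hc2 hd0
          calc M ^ 2 * (τ ^ 2 / 4 * μ ^ 2 + g * |μ - μ₀|)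
              ≤ M ^ 2 * (τ ^ 2 / 4 * μ ^ 2 + τ / 2 * |μ - μ₀|) :=
                mul_le_mul_of_nonneg_left (by linarith) (by positivity)
            _ = (M ^ 2 * τ) * (τ * μ ^ 2 / 4 + |μ - μ₀| / 2) := by ring
            _ ≤ (4 * T ^ 2) * (τ * μ ^ 2 / 4 + |μ - μ₀| / 2) :=
                mul_le_mul_of_nonneg_right hMτ2 (by positivity)
            _ = T ^ 2 * (τ * μ ^ 2) + 2 * (T ^ 2 * |μ - μ₀|) := by ring
            _ ≤ 3 * δ := by linarith
        calc CP * (η * μ) + CP * M ^ 2 * (τ ^ 2 / 4 * μ ^ 2 + g * |μ - μ₀|)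
            = CP * (η * μ) + CP * (M ^ 2 * (τ ^ 2 / 4 * μ ^ 2 + g * |μ - μ₀|)) := by ring
          _ ≤ CP * δ + CP * (3 * δ) :=
              add_le_add (mul_le_mul_of_nonneg_left c1 hCP0) (mul_le_mul_of_nonneg_left c4 hCP0)
          _ = (4 * CP) * δ := by ring
          _ ≤ C * δ := hCC _ (by linarith) δ hδ.le
      have h2 : 1 * WBA_N F (fun z => pA (fm κ₁ τ) p (conv (fm κ₁ η) (conv (fm κ₁ η) φ)) z - φ z) ≤
          (C * δ) * WBA_N F φ := by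
        rw [one_mul]
        exact mC1.trans (mul_le_mul_of_nonneg_right h1 hn)
      have h3 := WBA_to_sq zero_le_one h2
      rwa [one_pow, one_mul] at h3
    · rw [hwt]
      apply WBA_to_sq hw0
      have h1 : w * |μ - μ₀| ≤ 2 * δ := by
        have c3 : T ^ 2 * |μ - μ₀| ≤ δ := by
          have k := mul_le_mul_of_nonneg_left hμd (by positivity : 0 ≤ T ^ 2)
          have e : T ^ 2 * (δ / T ^ 2) = δ := by field_simp
          rwa [e] at k
        have c5 : w * |μ - μ₀| ≤ T * |μ - μ₀| := mul_le_mul_of_nonneg_right hwT hd0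
        have c6 : T * |μ - μ₀| * 1 ≤ T * |μ - μ₀| * (2 * T) :=
          mul_le_mul_of_nonneg_left (by linarith) (by positivity)
        calc w * |μ - μ₀| ≤ T * |μ - μ₀| * 1 := by rw [mul_one]; exact c5
          _ ≤ T * |μ - μ₀| * (2 * T) := c6
          _ = 2 * (T ^ 2 * |μ - μ₀|) := by ring
          _ ≤ 2 * δ := by linarith
      calc w * WBA_N F (fun z => lap (pA (fm κ₁ τ) p (conv (fm κ₁ η) (conv (fm κ₁ η) φ))) z -
            μ₀ • pA (fm κ₁ τ) p (conv (fm κ₁ η) (conv (fm κ₁ η) φ)) z)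
          ≤ w * (|μ - μ₀| * CP * WBA_N F φ) := mul_le_mul_of_nonneg_left mC2 hw0
        _ = (w * |μ - μ₀|) * (CP * WBA_N F φ) := by ring
        _ ≤ (2 * δ) * (CP * WBA_N F φ) := mul_le_mul_of_nonneg_right h1 (by positivity)
        _ = (2 * CP) * (δ * WBA_N F φ) := by ring
        _ ≤ C * (δ * WBA_N F φ) := hCC _ (by linarith) _ (by positivity)
        _ = (C * δ) * WBA_N F φ := by ring

end Pool.Agent.QX
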