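import Pool.Agent.helper4.QX.SpecF
import Pool.Agent.helper4.QX.SVM

set_option autoImplicit false

/-! # Row EMX of project QX (MP_07c750): the averaging operator on a compact surface mixes exponentially fast
(minorisation of Doeblin) -/

open scoped MatrixGroups ContDiff Topology UpperHalfPlane
open UpperHalfPlane MeasureTheory ProbabilityTheory Filter Set Polynomial
open Pool.Agent.QU Pool.Agent.RP

namespace Pool.Agent.QX

open scoped Pointwise in
/-- closed balls of the same radius have the same volume, which is positive and finite -/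
theorem EMX_vol (s : ℝ) (hs : 0 < s) : ∃ V : ENNReal, V ≠ 0 ∧ V ≠ ⊤ ∧
    ∀ z : ℍ, (volume : Measure ℍ) (Metric.closedBall z s) = V := by
  obtain ⟨i1, -, i3, -⟩ := A_INV
  obtain ⟨-, -, -, -, -, -, -, t8⟩ := A_TTT
  refine ⟨(volume : Measure ℍ) (Metric.closedBall UpperHalfPlane.I s),
    (Metric.measure_closedBall_pos _ _ hs).ne', (isCompact_closedBall _ s).measure_lt_top.ne, ?_⟩
  intro z
  obtain ⟨g, hg⟩ := t8 UpperHalfPlane.I z
  have h1 : g • Metric.closedBall UpperHalfPlane.I s = Metric.closedBall z s := by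
    rw [Metric.smul_closedBall, hg]
  rw [← h1, measure_smul]

theorem EMX_cosh : Real.cosh (1 / 2) ≤ 3 / 2 := by
  have h1 := Real.cosh_le_exp_half_sq (1 / 2)
  have h2 : Real.exp ((1 / 2) ^ 2 / 2) ≤ 1 / (1 - (1 / 2) ^ 2 / 2) := by
    apply Real.exp_bound_div_one_sub_of_interval <;> norm_num
  have h3 : (1 : ℝ) / (1 - (1 / 2) ^ 2 / 2) ≤ 3 / 2 := by norm_num
  linarith

theorem EMX_min {κ₁ : ℝ → ℝ} {C : ℝ} (h : BF κ₁ C) : ∃ c : ℝ, 0 < c ∧ ∀ z w : ℍ, dist z w ≤ 1 / 2 →
    c ≤ fm κ₁ 1 (tt z w) := by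
  obtain ⟨t1, t2, -⟩ := A_TTT
  have hc : Continuous (fm κ₁ 1) := (h.fam.rk 1 one_pos).smooth.continuous
  obtain ⟨t₀, ht₀, hmin⟩ := (isCompact_Icc (a := (0 : ℝ)) (b := 1 / 2)).exists_isMinOn
    ⟨0, by norm_num⟩ hc.continuousOn
  refine ⟨fm κ₁ 1 t₀, h.fam.pos 1 one_pos t₀ ht₀.1 (by linarith [ht₀.2]), ?_⟩
  intro z w hzw
  have h1 : tt z w ∈ Set.Icc (0 : ℝ) (1 / 2) := by
    refine ⟨t2 z w, ?_⟩
    rw [t1]
    have h2 : Real.cosh (dist z w) ≤ Real.cosh (1 / 2) := by
      rw [Real.cosh_le_cosh, abs_of_nonneg dist_nonneg, abs_of_pos (by norm_num)]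
      exact hzw
    linarith [EMX_cosh]
  exact hmin h1

theorem EMX_int {κ₁ : ℝ → ℝ} {C : ℝ} (h : BF κ₁ C) {u : ℍ → ℝ} (hu : Continuous u) (z : ℍ) :
    Integrable (fun w : ℍ => fm κ₁ 1 (tt z w) * u w) := by
  obtain ⟨-, -, t3, -, t5, -⟩ := A_TTT
  have hk : RK (fm κ₁ 1) := h.fam.rk 1 one_pos
  have hcont : Continuous fun w : ℍ => fm κ₁ 1 (tt z w) :=
    hk.smooth.continuous.comp (t5.comp (continuous_const.prodMk continuous_id))
  have hcs : HasCompactSupport fun w : ℍ => fm κ₁ 1 (tt z w) := by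
    have := A_LAK.2.2.1 (fm κ₁ 1) z hk
    have e : (fun w : ℍ => fm κ₁ 1 (tt z w)) = fun w => fm κ₁ 1 (tt w z) := by
      funext w
      rw [t3]
    rw [e]
    exact this
  exact (hcont.mul hu).integrable_of_hasCompactSupport hcs.mul_right

theorem EMX_nonneg {κ₁ : ℝ → ℝ} {C : ℝ} (h : BF κ₁ C) {u : ℍ → ℝ} (hu0 : ∀ z, 0 ≤ u z) (z : ℍ) :
    0 ≤ conv (fm κ₁ 1) u z := by
  unfold conv
  apply integral_nonneg
  intro w
  exact mul_nonneg (h.fam.nonneg 1 one_pos _) (hu0 w)

theorem EMX_cont {κ₁ : ℝ → ℝ} {C : ℝ} (h : BF κ₁ C) {u : ℍ → ℝ} (hu : Continuous u) :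
    Continuous (conv (fm κ₁ 1) u) :=
  (A_CVB ℝ).2.2.2.2.2.1 (fm κ₁ 1) u (h.fam.rk 1 one_pos) hu

theorem EMX_base {κ₁ : ℝ → ℝ} {C c : ℝ} (h : BF κ₁ C) (hc0 : 0 < c)
    (hc : ∀ z w : ℍ, dist z w ≤ 1 / 2 → c ≤ fm κ₁ 1 (tt z w))
    {u : ℍ → ℝ} (hu : Continuous u) (hu0 : ∀ z, 0 ≤ u z) (z : ℍ) :
    ENNReal.ofReal c * ∫⁻ w in Metric.closedBall z (1 / 2), ENNReal.ofReal (u w) ≤
      ENNReal.ofReal (conv (fm κ₁ 1) u z) := by
  unfold conv
  simp only [smul_eq_mul]
  rw [ofReal_integral_eq_lintegral_ofReal (EMX_int h hu z)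
    (Eventually.of_forall fun w => mul_nonneg (h.fam.nonneg 1 one_pos _) (hu0 w))]
  calc ENNReal.ofReal c * ∫⁻ w in Metric.closedBall z (1 / 2), ENNReal.ofReal (u w)
      = ∫⁻ w in Metric.closedBall z (1 / 2), ENNReal.ofReal c * ENNReal.ofReal (u w) := by
        rw [lintegral_const_mul _ (hu.measurable.ennreal_ofReal)]
    _ ≤ ∫⁻ w in Metric.closedBall z (1 / 2), ENNReal.ofReal (fm κ₁ 1 (tt z w) * u w) := by
        apply setLIntegral_mono' Metric.isClosed_closedBall.measurableSet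
        intro w hw
        rw [← ENNReal.ofReal_mul hc0.le]
        apply ENNReal.ofReal_le_ofReal
        apply mul_le_mul_of_nonneg_right _ (hu0 w)
        apply hc
        rw [dist_comm]
        exact hw
    _ ≤ ∫⁻ w, ENNReal.ofReal (fm κ₁ 1 (tt z w) * u w) := setLIntegral_le_lintegral _ _

/-- the ball of radius `R + 1/4` is covered with multiplicity by the balls of radius `R` with centres in the ball of
radius `1/2` -/
theorem EMX_swap {V : ENNReal} (hV : ∀ z : ℍ, (volume : Measure ℍ) (Metric.closedBall z (1 / 8)) = V)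
    {R : ℝ} (hR : 1 / 8 < R) {U : ℍ → ENNReal} (hU : Measurable U) (z : ℍ) :
    V * ∫⁻ v in Metric.closedBall z (R + 1 / 4), U v ≤
      ∫⁻ w in Metric.closedBall z (1 / 2), ∫⁻ v in Metric.closedBall w R, U v := by
  set S : Set (ℍ × ℍ) := {p | dist p.1 z ≤ 1 / 2 ∧ dist p.2 p.1 ≤ R} with hS
  have hSm : MeasurableSet S := by
    apply IsClosed.measurableSet
    apply IsClosed.inter
    · exact isClosed_le (continuous_fst.dist continuous_const) continuous_const
    · exact isClosed_le (continuous_snd.dist continuous_fst) continuous_const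
  set G : ℍ → ℍ → ENNReal := fun w v => S.indicator (fun p => U p.2) (w, v) with hG
  have hGm : Measurable (Function.uncurry G) := by
    have : Function.uncurry G = S.indicator (fun p => U p.2) := by
      funext p
      rfl
    rw [this]
    exact (hU.comp measurable_snd).indicator hSm
  have e1 : ∫⁻ w in Metric.closedBall z (1 / 2), ∫⁻ v in Metric.closedBall w R, U v =
      ∫⁻ w, ∫⁻ v, G w v := by
    rw [← lintegral_indicator Metric.isClosed_closedBall.measurableSet]
    apply lintegral_congr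
    intro w
    by_cases hw : w ∈ Metric.closedBall z (1 / 2)
    · rw [Set.indicator_of_mem hw, ← lintegral_indicator Metric.isClosed_closedBall.measurableSet]
      apply lintegral_congr
      intro v
      by_cases hv : v ∈ Metric.closedBall w R
      · rw [Set.indicator_of_mem hv]
        have : (w, v) ∈ S := ⟨hw, hv⟩
        simp only [hG]
        rw [Set.indicator_of_mem this]
      · rw [Set.indicator_of_notMem hv]
        have : (w, v) ∉ S := fun h => hv h.2
        simp only [hG]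
        rw [Set.indicator_of_notMem this]
    · rw [Set.indicator_of_notMem hw]
      have : ∀ v, G w v = 0 := by
        intro v
        have : (w, v) ∉ S := fun h => hw h.1
        simp only [hG]
        rw [Set.indicator_of_notMem this]
      simp only [this, lintegral_zero]
  rw [e1, lintegral_lintegral_swap hGm.aemeasurable, ← lintegral_const_mul _ hU,
    ← lintegral_indicator Metric.isClosed_closedBall.measurableSet]
  apply lintegral_mono
  intro v
  by_cases hv : v ∈ Metric.closedBall z (R + 1 / 4)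
  · rw [Set.indicator_of_mem hv]
    obtain ⟨m, hm1, hm2⟩ := SVM_mid z v (3 / 8) (R - 1 / 8) (by norm_num) (by linarith) (by
      rw [Metric.mem_closedBall, dist_comm] at hv
      linarith)
    calc V * U v = ∫⁻ w in Metric.closedBall m (1 / 8), U v := by
          rw [setLIntegral_const, hV m, mul_comm]
      _ ≤ ∫⁻ w in Metric.closedBall m (1 / 8), G w v := by
          apply setLIntegral_mono' Metric.isClosed_closedBall.measurableSet
          intro w hw
          rw [Metric.mem_closedBall] at hw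
          have : (w, v) ∈ S := by
            constructor
            · have := dist_triangle w m z
              rw [dist_comm m z] at this
              show dist w z ≤ 1 / 2
              linarith
            · have := dist_triangle v m w
              rw [dist_comm v m, dist_comm m w] at this
              show dist v w ≤ R
              linarith
          simp only [hG]
          rw [Set.indicator_of_mem this]
      _ ≤ ∫⁻ w, G w v := setLIntegral_le_lintegral _ _
  · rw [Set.indicator_of_notMem hv]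
    exact zero_le

theorem EMX_iter {κ₁ : ℝ → ℝ} {C : ℝ} (h : BF κ₁ C) (u : ℍ → ℝ) (hu : Continuous u)
    (hu0 : ∀ z, 0 ≤ u z) (n : ℕ) : Continuous ((conv (fm κ₁ 1))^[n] u) ∧
      ∀ z, 0 ≤ (conv (fm κ₁ 1))^[n] u z := by
  induction n with
  | zero => exact ⟨hu, hu0⟩
  | succ n ih =>
    rw [Function.iterate_succ_apply']
    exact ⟨EMX_cont h ih.1, EMX_nonneg h ih.2⟩

theorem EMX_lower {κ₁ : ℝ → ℝ} {C : ℝ} (h : BF κ₁ C) (n : ℕ) : ∃ c : ℝ, 0 < c ∧
    ∀ u : ℍ → ℝ, Continuous u → (∀ z, 0 ≤ u z) → ∀ z,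
      ENNReal.ofReal c * ∫⁻ v in Metric.closedBall z (((n : ℝ) + 2) / 4), ENNReal.ofReal (u v) ≤
        ENNReal.ofReal ((conv (fm κ₁ 1))^[n + 1] u z) := by
  obtain ⟨c₁, hc₁, hmin⟩ := EMX_min h
  obtain ⟨V, hV0, hVt, hV⟩ := EMX_vol (1 / 8) (by norm_num)
  induction n with
  | zero =>
    refine ⟨c₁, hc₁, fun u hu hu0 z => ?_⟩
    have h1 := EMX_base h hc₁ hmin hu hu0 z
    have h2 : (((0 : ℕ) : ℝ) + 2) / 4 = 1 / 2 := by norm_num
    rw [h2]
    exact h1
  | succ n ih =>
    obtain ⟨c, hc, hlow⟩ := ih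
    have hVr : 0 < V.toReal := ENNReal.toReal_pos hV0 hVt
    refine ⟨c₁ * c * V.toReal, by positivity, fun u hu hu0 z => ?_⟩
    obtain ⟨hcon, hnn⟩ := EMX_iter h u hu hu0 (n + 1)
    rw [Function.iterate_succ_apply']
    refine le_trans ?_ (EMX_base h hc₁ hmin hcon hnn z)
    have hU : Measurable fun v : ℍ => ENNReal.ofReal (u v) := hu.measurable.ennreal_ofReal
    have hn0 : (0 : ℝ) ≤ n := Nat.cast_nonneg n
    have h3 := EMX_swap hV (R := ((n : ℝ) + 2) / 4) (by linarith) hU z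
    have e1 : (((n + 1 : ℕ) : ℝ) + 2) / 4 = ((n : ℝ) + 2) / 4 + 1 / 4 := by
      push_cast
      ring
    have e2 : ENNReal.ofReal (c₁ * c * V.toReal) = ENNReal.ofReal c₁ * (ENNReal.ofReal c * V) := by
      rw [ENNReal.ofReal_mul (by positivity), ENNReal.ofReal_mul hc₁.le, ENNReal.ofReal_toReal hVt,
        mul_assoc]
    rw [e1, e2, mul_assoc, mul_assoc]
    gcongr
    calc ENNReal.ofReal c * (V * ∫⁻ v in Metric.closedBall z (((n : ℝ) + 2) / 4 + 1 / 4),
          ENNReal.ofReal (u v))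
        ≤ ENNReal.ofReal c * ∫⁻ w in Metric.closedBall z (1 / 2),
          ∫⁻ v in Metric.closedBall w (((n : ℝ) + 2) / 4), ENNReal.ofReal (u v) := by
          gcongr
      _ = ∫⁻ w in Metric.closedBall z (1 / 2), ENNReal.ofReal c *
          ∫⁻ v in Metric.closedBall w (((n : ℝ) + 2) / 4), ENNReal.ofReal (u v) := by
          rw [lintegral_const_mul' _ _ ENNReal.ofReal_ne_top]
      _ ≤ _ := by
          apply setLIntegral_mono' Metric.isClosed_closedBall.measurableSet
          intro w _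
          exact hlow u hu hu0 w

theorem EMX_aff {κ₁ : ℝ → ℝ} {C : ℝ} (h : BF κ₁ C) (m s : ℝ) (j : ℕ) : ∀ f : ℍ → ℝ, Continuous f →
    (conv (fm κ₁ 1))^[j] (fun z => m + s * f z) = fun z => m + s * (conv (fm κ₁ 1))^[j] f z := by
  induction j with
  | zero =>
    intro f _
    rfl
  | succ j ih =>
    intro f hf
    rw [Function.iterate_succ_apply, Function.iterate_succ_apply]
    have h1 : conv (fm κ₁ 1) (fun z => m + s * f z) = fun z => m + s * conv (fm κ₁ 1) f z := by
      funext z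
      have h2 := (A_CVB ℝ).2.1 (fm κ₁ 1) (fun _ => 1) f m s z (h.fam.rk 1 one_pos)
        continuous_const hf
      have h3 : conv (fm κ₁ 1) (fun _ : ℍ => (1 : ℝ)) z = 1 := by
        unfold conv
        simp only [smul_eq_mul, mul_one]
        exact h.fam.mass 1 one_pos z
      simp only [smul_eq_mul, mul_one, h3] at h2
      exact h2
    rw [h1, ih _ (EMX_cont h hf)]

theorem EMX_bdd {κ₁ : ℝ → ℝ} {C : ℝ} (h : BF κ₁ C) {f : ℍ → ℝ} (hf : Continuous f) {m : ℝ}
    (hm : ∀ z, |f z| ≤ m) (j : ℕ) (z : ℍ) : |(conv (fm κ₁ 1))^[j] f z| ≤ m := by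
  have h1 := (EMX_iter h (fun z => m + (-1) * f z) (by fun_prop) (fun z => by
    have := (abs_le.1 (hm z)).2
    linarith) j).2 z
  have h2 := (EMX_iter h (fun z => m + 1 * f z) (by fun_prop) (fun z => by
    have := (abs_le.1 (hm z)).1
    linarith) j).2 z
  rw [EMX_aff h m _ j f hf] at h1 h2
  rw [abs_le]
  constructor <;> linarith

theorem EMX_inv {κ₁ : ℝ → ℝ} {C : ℝ} (h : BF κ₁ C) {Γ : Subgroup SL(2, ℝ)} {f : ℍ → ℝ}
    (hf : Inv Γ f) (j : ℕ) : Inv Γ ((conv (fm κ₁ 1))^[j] f) := by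
  induction j with
  | zero => exact hf
  | succ j ih =>
    rw [Function.iterate_succ_apply']
    exact (A_CVB ℝ).2.2.2.2.2.2.2 Γ (fm κ₁ 1) _ (h.fam.rk 1 one_pos) ih

theorem EMX_mean {κ₁ : ℝ → ℝ} {C : ℝ} (h : BF κ₁ C) {Γ : Subgroup SL(2, ℝ)} {F : Set ℍ}
    (hS : SurfaceGroup Γ) (hF : NiceDom Γ F) {f : ℍ → ℝ}
    (hf : Inv Γ f) (j : ℕ) : ∫ z in F, (conv (fm κ₁ 1))^[j] f z = ∫ z in F, f z := by
  induction j with
  | zero => rfl
  | succ j ih =>
    rw [Function.iterate_succ_apply', ← ih]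
    have h1 := A_SYC Γ F (fm κ₁ 1) _ (fun _ => (1 : ℝ)) hS hF (h.fam.rk 1 one_pos) (EMX_inv h hf j)
      ⟨continuous_const, fun _ _ => rfl⟩
    have h3 : ∀ z, conv (fm κ₁ 1) (fun _ : ℍ => (1 : ℝ)) z = 1 := by
      intro z
      unfold conv
      simp only [smul_eq_mul, mul_one]
      exact h.fam.mass 1 one_pos z
    simp only [h3, mul_one] at h1
    exact h1

/-- the minorisation -/
theorem EMX_doeblin {κ₁ : ℝ → ℝ} {C : ℝ} (h : BF κ₁ C) {Γ : Subgroup SL(2, ℝ)} {F : Set ℍ}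
    (hS : SurfaceGroup Γ) (hF : NiceDom Γ F) : ∃ (M : ℕ) (c : ℝ), 1 ≤ M ∧ 0 < c ∧
      ∀ u : ℍ → ℝ, Inv Γ u → (∀ z, 0 ≤ u z) → ∀ z, c * ∫ v in F, u v ≤ (conv (fm κ₁ 1))^[M] u z := by
  obtain ⟨K, hK, hFK⟩ := hF.rel
  obtain ⟨-, -, -, hfin, -, -⟩ := A_DOB Γ F hS hF
  obtain ⟨n, hn⟩ := exists_nat_ge (4 * Metric.diam K)
  obtain ⟨c, hc, hlow⟩ := EMX_lower h n
  refine ⟨n + 1, c, by omega, hc, ?_⟩
  intro u hu hu0 z
  obtain ⟨γ, hγ, -⟩ := hF.uniq z
  obtain ⟨hcon, hnn⟩ := EMX_iter h u hu.1 hu0 (n + 1)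
  rw [← (EMX_inv h hu (n + 1)).2 γ z]
  have h1 := hlow u hu.1 hu0 (γ • z)
  have h2 : F ⊆ Metric.closedBall (γ • z) (((n : ℝ) + 2) / 4) := by
    intro v hv
    rw [Metric.mem_closedBall]
    have := Metric.dist_le_diam_of_mem hK.isBounded (hFK hv) (hFK hγ)
    linarith
  obtain ⟨m, hm⟩ := (A_BDD Γ F u hS hF hu).1
  have hint : IntegrableOn u F := by
    apply Measure.integrableOn_of_bounded (M := m) hfin.ne hu.1.aestronglyMeasurable
    exact Eventually.of_forall fun z => hm z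
  have h3 : ENNReal.ofReal (c * ∫ v in F, u v) ≤
      ENNReal.ofReal ((conv (fm κ₁ 1))^[n + 1] u (γ • z)) := by
    rw [ENNReal.ofReal_mul hc.le, ofReal_integral_eq_lintegral_ofReal hint
      (Eventually.of_forall hu0)]
    refine le_trans ?_ h1
    gcongr
  exact (ENNReal.ofReal_le_ofReal_iff (hnn _)).1 h3

theorem EMX : EMX_stmt := by
  intro κ₁ C h Γ F hS hF
  obtain ⟨M, c, hM, hc, hlow⟩ := EMX_doeblin h hS hF
  obtain ⟨-, -, hpos, hfin, -, -⟩ := A_DOB Γ F hS hF
  set v : ℝ := (volume F).toReal with hv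
  have hv0 : 0 < v := ENNReal.toReal_pos hpos.ne' hfin.ne
  have hM0 : (M : ℝ) ≠ 0 := by
    have : M ≠ 0 := by omega
    exact_mod_cast this
  have hcv : c * v ≤ 1 := by
    have h1 := hlow (fun _ => 1) ⟨continuous_const, fun _ _ => rfl⟩ (fun _ => zero_le_one)
      UpperHalfPlane.I
    have h2 := EMX_bdd h (f := fun _ => (1 : ℝ)) continuous_const (m := 1) (fun _ => by simp) M
      UpperHalfPlane.I
    have h3 : ∫ _ in F, (1 : ℝ) = v := by
      rw [setIntegral_const, smul_eq_mul, mul_one]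
      rfl
    rw [h3] at h1
    have := (abs_le.1 h2).2
    linarith
  set θ₀ : ℝ := 1 - c * v / 2 with hθ₀
  have hcv0 : 0 < c * v := by positivity
  have hθ₀0 : 0 < θ₀ := by rw [hθ₀]; linarith
  have hθ₀1 : θ₀ < 1 := by rw [hθ₀]; linarith
  have hstep : ∀ (f : ℍ → ℝ) (m : ℝ), Inv Γ f → (∫ z in F, f z) = 0 → (∀ z, |f z| ≤ m) →
      ∀ z, |(conv (fm κ₁ 1))^[M] f z| ≤ θ₀ * m := by
    intro f m hf hf0 hm z
    have hm0 : 0 ≤ m := (abs_nonneg _).trans (hm z)
    have hint : IntegrableOn f F := by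
      apply Measure.integrableOn_of_bounded (M := m) hfin.ne hf.1.aestronglyMeasurable
      exact Eventually.of_forall fun z => hm z
    have key : ∀ s : ℝ, (∀ z, 0 ≤ m + s * f z) → c * (m * v) ≤ m + s * (conv (fm κ₁ 1))^[M] f z := by
      intro s hs
      have h1 := hlow (fun z => m + s * f z) ⟨by have := hf.1; fun_prop, fun γ z => by
        show m + s * f (γ • z) = m + s * f z
        rw [hf.2]⟩ hs z
      rw [EMX_aff h m s M f hf.1, integral_add (integrable_const_iff.2 (Or.inr (by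
        constructor
        rw [Measure.restrict_apply_univ]
        exact hfin))) (hint.const_mul s), integral_const_mul, hf0, mul_zero, add_zero,
        setIntegral_const, smul_eq_mul] at h1
      have e : (volume : Measure ℍ).real F = v := rfl
      rw [e, mul_comm v m] at h1
      exact h1
    have k1 := key (-1) (fun z => by
      have := (abs_le.1 (hm z)).2
      linarith)
    have k2 := key 1 (fun z => by
      have := (abs_le.1 (hm z)).1
      linarith)
    have h5 : 0 ≤ c * v * m := by positivity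
    rw [abs_le, hθ₀]
    constructor <;> nlinarith
  have hiter : ∀ (k : ℕ) (f : ℍ → ℝ) (m : ℝ), Inv Γ f → (∫ z in F, f z) = 0 → (∀ z, |f z| ≤ m) →
      ∀ z, |(conv (fm κ₁ 1))^[M * k] f z| ≤ θ₀ ^ k * m := by
    intro k
    induction k with
    | zero =>
      intro f m _ _ hm z
      simpa using hm z
    | succ k ih =>
      intro f m hf hf0 hm z
      rw [Nat.mul_succ, Function.iterate_add_apply]
      have h1 := ih ((conv (fm κ₁ 1))^[M] f) (θ₀ * m) (EMX_inv h hf M) (by
        rw [EMX_mean h hS hF hf M, hf0]) (hstep f m hf hf0 hm) z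
      rw [pow_succ, mul_assoc]
      exact h1
  set θ : ℝ := θ₀ ^ ((1 : ℝ) / M) with hθ
  have hθpos : 0 < θ := Real.rpow_pos_of_pos hθ₀0 _
  have hθ1 : θ < 1 := by
    apply Real.rpow_lt_one hθ₀0.le hθ₀1
    positivity
  have hθM : θ ^ M = θ₀ := by
    rw [hθ, ← Real.rpow_natCast, ← Real.rpow_mul hθ₀0.le, one_div, inv_mul_cancel₀ hM0,
      Real.rpow_one]
  refine ⟨1 / θ₀, θ, ?_, hθpos, hθ1, ?_⟩
  · rw [le_div_iff₀ hθ₀0]
    linarith
  intro f m hf hf0 hm j
  refine ⟨EMX_inv h hf j, fun z => ?_⟩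
  have hm0 : 0 ≤ m := (abs_nonneg _).trans (hm z)
  have hj : M * (j / M) + j % M = j := Nat.div_add_mod j M
  have h1 := hiter (j / M) ((conv (fm κ₁ 1))^[j % M] f) m (EMX_inv h hf _) (by
    rw [EMX_mean h hS hF hf _, hf0]) (EMX_bdd h hf.1 hm _) z
  rw [← Function.iterate_add_apply, hj] at h1
  refine h1.trans ?_
  apply mul_le_mul_of_nonneg_right _ hm0
  rw [div_mul_eq_mul_div, one_mul, le_div_iff₀ hθ₀0]
  have h2 : j % M ≤ M := (Nat.mod_lt j (by omega)).le
  calc θ₀ ^ (j / M) * θ₀ = θ ^ (M * (j / M)) * θ ^ M := by rw [pow_mul, hθM]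
    _ ≤ θ ^ (M * (j / M)) * θ ^ (j % M) := by
        apply mul_le_mul_of_nonneg_left _ (by positivity)
        exact pow_le_pow_of_le_one hθpos.le hθ1.le h2
    _ = θ ^ j := by rw [← pow_add, hj]

end Pool.Agent.QX
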